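import Pool.Agent.T6.H74.SG.Tot

/-!
# `σ(n) = k n + 5` has no solution with at most two distinct prime factors (MP_026e5e_nt)
-/

set_option autoImplicit false

namespace Pool.Agent.T6.H74.S5

open Finset Pool.Agent.T6.H74.SG

lemma small (n k : ℕ) (hn : 0 < n) (hk : k ≤ 1) : sig n ≠ k * n + 5 := by
  intro h
  by_cases h16 : n ≤ 16
  · interval_cases k <;> interval_cases n <;> revert h <;> decide
  push Not at h16
  have hle : n ≤ sig n := by
    unfold sig
    exact Finset.single_le_sum (f := fun d : ℕ => d) (fun _ _ => Nat.zero_le _)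
      (Nat.mem_divisors_self n hn.ne')
  have hk1 : k = 1 := by
    interval_cases k
    · omega
    · rfl
  subst hk1
  by_cases hp : n.Prime
  · have : sig n = n + 1 := by
      unfold sig
      rw [hp.divisors, Finset.sum_pair hp.one_lt.ne]
      ring
    omega
  · obtain ⟨m, hm⟩ := Nat.minFac_dvd n
    have hq2 : n.minFac ^ 2 ≤ n := Nat.minFac_sq_le_self hn hp
    have hqp : n.minFac.Prime := Nat.minFac_prime (by omega)
    have hqm : n.minFac ≤ m := by
      have : n.minFac * n.minFac ≤ n.minFac * m := by rw [← hm, ← sq]; exact hq2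
      exact Nat.le_of_mul_le_mul_left this hqp.pos
    have hm5 : 5 ≤ m := by
      by_contra hlt
      push Not at hlt
      have : n ≤ 4 * 4 := by
        rw [hm]
        exact Nat.mul_le_mul (by omega) (by omega)
      omega
    have hmn : m < n := by
      have h1 := hqp.two_le
      nlinarith
    have hsub : ({1, m, n} : Finset ℕ) ⊆ n.divisors := by
      intro x hx
      simp only [mem_insert, mem_singleton] at hx
      rw [Nat.mem_divisors]
      rcases hx with rfl | rfl | rfl
      · exact ⟨one_dvd _, hn.ne'⟩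
      · exact ⟨⟨n.minFac, by rw [mul_comm]; exact hm⟩, hn.ne'⟩
      · exact ⟨dvd_rfl, hn.ne'⟩
    have h3 : ∑ d ∈ ({1, m, n} : Finset ℕ), d ≤ sig n :=
      Finset.sum_le_sum_of_subset hsub
    rw [Finset.sum_insert (by simp; omega), Finset.sum_insert (by simp; omega),
      Finset.sum_singleton] at h3
    omega

lemma sig_step {p : ℕ} (hp : p.Prime) (b : ℕ) :
    sig (p ^ (b + 1)) = p * sig (p ^ b) + 1 ∧ sig (p ^ (b + 1)) = sig (p ^ b) + p ^ (b + 1) := by
  rw [sig_pp hp, sig_pp hp]
  refine ⟨?_, Finset.sum_range_succ _ _⟩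
  rw [Finset.sum_range_succ', Finset.mul_sum]
  simp [pow_succ, mul_comm]

lemma sig_lt' {p : ℕ} (hp : p.Prime) (a : ℕ) : (sig (p ^ a) : ℤ) * (p - 1) < p * p ^ a := by
  have h : ∀ a : ℕ, (sig (p ^ a) : ℤ) * (p - 1) = p ^ (a + 1) - 1 := by
    intro a
    rw [sig_pp hp]
    push_cast
    exact geom_sum_mul _ _
  rw [h a, pow_succ]
  linarith

lemma one_prime {p a k : ℕ} (hp : p.Prime) (h : sig (p ^ a) = k * p ^ a + 5) : False := by
  have h1 := sig_lt' hp a
  by_cases hk : k ≤ 1
  · exact small _ k (pow_pos hp.pos a) hk h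
  push Not at hk
  have h2 : (2 : ℤ) ≤ p := by exact_mod_cast hp.two_le
  have h3 : (2 : ℤ) ≤ k := by exact_mod_cast hk
  have h4 : (0 : ℤ) < (p : ℤ) ^ a := by positivity
  rw [h] at h1
  push_cast at h1
  have h5 : (2 : ℤ) * p ^ a ≤ k * p ^ a := mul_le_mul_of_nonneg_right h3 h4.le
  nlinarith

lemma two_primes {p q a b k : ℕ} (hp : p.Prime) (hq : q.Prime) (hpq : p < q)
    (h : sig (p ^ a * q ^ (b + 1)) = k * (p ^ a * q ^ (b + 1)) + 5) : False := by
  have hpos : 0 < p ^ a * q ^ (b + 1) := Nat.mul_pos (pow_pos hp.pos _) (pow_pos hq.pos _)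
  by_cases hk : k ≤ 1
  · exact small _ k hpos hk h
  push Not at hk
  have hc : Nat.Coprime (p ^ a) (q ^ (b + 1)) :=
    Nat.Coprime.pow _ _ ((Nat.coprime_primes hp hq).2 hpq.ne)
  have h1 := sig_lt' hp a
  have h2 := sig_lt' hq (b + 1)
  have hm : sig (p ^ a * q ^ (b + 1)) = sig (p ^ a) * sig (q ^ (b + 1)) := sig_mul hc
  have p2 : (2 : ℤ) ≤ p := by exact_mod_cast hp.two_le
  have q3 : (3 : ℤ) ≤ q := by
    have := hp.two_le
    exact_mod_cast (by omega : 3 ≤ q)
  set N : ℤ := (p : ℤ) ^ a * (q : ℤ) ^ (b + 1) with hN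
  have hN0 : 0 < N := by positivity
  have hineq : ((k : ℤ) * N + 5) * ((p - 1) * (q - 1)) < p * q * N := by
    have e : ((k : ℤ) * N + 5) = (sig (p ^ a) : ℤ) * sig (q ^ (b + 1)) := by
      have := congrArg (Nat.cast : ℕ → ℤ) h
      rw [hm] at this
      push_cast at this
      rw [this]
    rw [e]
    have s1 : (0 : ℤ) ≤ sig (q ^ (b + 1)) * ((q : ℤ) - 1) := mul_nonneg (by positivity) (by linarith)
    have s2 : (0 : ℤ) < (p : ℤ) * p ^ a := by positivity
    calc (sig (p ^ a) : ℤ) * sig (q ^ (b + 1)) * ((p - 1) * (q - 1))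
        = ((sig (p ^ a) : ℤ) * (p - 1)) * (sig (q ^ (b + 1)) * (q - 1)) := by ring
      _ ≤ ((p : ℤ) * p ^ a) * (sig (q ^ (b + 1)) * (q - 1)) :=
          mul_le_mul_of_nonneg_right h1.le s1
      _ < ((p : ℤ) * p ^ a) * (q * q ^ (b + 1)) := mul_lt_mul_of_pos_left h2 s2
      _ = p * q * N := by rw [hN]; ring
  have hpq1 : (0 : ℤ) < (p - 1) * (q - 1) := mul_pos (by linarith) (by linarith)
  by_cases hk3 : 3 ≤ k
  · have k3 : (3 : ℤ) ≤ k := by exact_mod_cast hk3
    have e1 : (3 : ℤ) * ((p - 1) * (q - 1)) ≥ p * q := by nlinarith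
    have e2 : ((3 : ℤ) * N + 5) * ((p - 1) * (q - 1)) ≤ (k * N + 5) * ((p - 1) * (q - 1)) :=
      mul_le_mul_of_nonneg_right (by nlinarith) hpq1.le
    nlinarith
  have hk2 : k = 2 := by omega
  subst hk2
  by_cases hp2 : p = 2
  · subst hp2
    -- the exact equation
    obtain ⟨s1, s2⟩ := sig_step hq b
    have hA : sig (2 ^ a) + 1 = 2 ^ (a + 1) := by
      have := geom_sum_eq (x := (2 : ℚ)) (by norm_num) (a + 1)
      rw [sig_pp Nat.prime_two]
      have h3 : ((∑ i ∈ range (a + 1), 2 ^ i + 1 : ℕ) : ℚ) = ((2 ^ (a + 1) : ℕ) : ℚ) := by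
        push_cast
        rw [this]
        norm_num
      exact_mod_cast h3
    rw [hm] at h
    set R := sig (q ^ b) with hR
    set Q := sig (q ^ (b + 1)) with hQ
    set A := 2 ^ (a + 1) with hAdef
    have hmain : (A : ℤ) * R = q * R + 6 := by
      have e1 : (sig (2 ^ a) : ℤ) = A - 1 := by
        have : ((sig (2 ^ a) + 1 : ℕ) : ℤ) = (A : ℤ) := by rw [hA]
        push_cast at this ⊢
        linarith
      have e2 : (sig (2 ^ a) : ℤ) * Q = 2 * (2 ^ a * q ^ (b + 1)) + 5 := by exact_mod_cast h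
      rw [e1] at e2
      have e3 : (Q : ℤ) = q * R + 1 := by exact_mod_cast s1
      have e4 : (Q : ℤ) = R + q ^ (b + 1) := by exact_mod_cast s2
      have e5 : (A : ℤ) = 2 * 2 ^ a := by rw [hAdef]; push_cast; ring
      have e6 : ((q : ℤ)) ^ (b + 1) = Q - R := by linarith
      rw [e6] at e2
      have e7 : (2 : ℤ) * (2 ^ a * (Q - R)) = A * (Q - R) := by rw [e5]; ring
      rw [e7] at e2
      have e8 : (A : ℤ) * R = Q + 5 := by linarith
      linarith
    have hmain' : A * R = q * R + 6 := by exact_mod_cast hmain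
    have hAeven : 2 ∣ A := ⟨2 ^ a, by rw [hAdef, pow_succ]; ring⟩
    have hqodd : q % 2 = 1 := Nat.odd_iff.1 (hq.odd_of_ne_two (by omega))
    rcases Nat.eq_zero_or_pos b with hb | hb
    · have hR1 : R = 1 := by rw [hR, hb]; simp [sig]
      rw [hR1] at hmain'
      omega
    · obtain ⟨c, rfl⟩ := Nat.exists_eq_add_of_le' hb
      obtain ⟨t1, t2⟩ := sig_step hq c
      have hRd : R ∣ 6 := by
        have h3 : R ∣ q * R + 6 := by rw [← hmain']; exact dvd_mul_left _ _
        exact (Nat.dvd_add_right (dvd_mul_left _ _)).1 h3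
      have hR6 : R ≤ 6 := Nat.le_of_dvd (by norm_num) hRd
      set R' := sig (q ^ c) with hR'
      have hR'1 : 1 ≤ R' := by
        rw [hR']
        unfold sig
        exact Finset.single_le_sum (f := fun d : ℕ => d) (fun _ _ => Nat.zero_le _)
          (Nat.one_mem_divisors.2 (pow_pos hq.pos c).ne')
      have hRq : R = q * R' + 1 := by rw [hR, hR']; exact t1
      have hq3 : 3 ≤ q := by omega
      have hq5 : q ≤ 5 := by nlinarith
      have hR'2 : R' = 1 := by nlinarith
      rw [hR'2, mul_one] at hRq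
      rw [hRq] at hRd hmain'
      have hq35 : q = 3 ∨ q = 5 := by omega
      rcases hq35 with rfl | rfl
      · omega
      · have hA6 : A = 6 := by omega
        rw [hAdef] at hA6
        rcases Nat.lt_or_ge a 2 with h | h
        · interval_cases a <;> omega
        · have : 2 ^ 3 ≤ 2 ^ (a + 1) := Nat.pow_le_pow_right (by norm_num) (by omega)
          omega
  · have p3 : (3 : ℤ) ≤ p := by
      have := hp.two_le
      exact_mod_cast (by omega : 3 ≤ p)
    have q5 : (5 : ℤ) ≤ q := by
      have h1 : q ≠ 4 := by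
        rintro rfl
        exact absurd hq (by norm_num)
      have h2 : 3 ≤ p := by exact_mod_cast p3
      exact_mod_cast (by omega : 5 ≤ q)
    have e1 : (2 : ℤ) * ((p - 1) * (q - 1)) ≥ p * q := by nlinarith
    push_cast at hineq
    nlinarith

theorem main (n k : ℕ) (hn : 0 < n) (hc : n.primeFactors.card ≤ 2) :
    sig n ≠ k * n + 5 := by
  intro h
  rcases Nat.lt_or_ge n.primeFactors.card 2 with h2 | h2
  · rcases Nat.eq_zero_or_pos n.primeFactors.card with h0 | h0
    · have h1 : n = 1 := by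
        have := Finset.card_eq_zero.1 h0
        rcases Nat.primeFactors_eq_empty.1 this with h | h
        · omega
        · exact h
      subst h1
      have : sig 1 = 1 := by simp [sig]
      omega
    · obtain ⟨p, j, hp, hj, rfl⟩ := (isPrimePow_nat_iff _).1
        (isPrimePow_iff_card_primeFactors_eq_one.2 (by omega : n.primeFactors.card = 1))
      exact one_prime hp h
  · obtain ⟨p, q, hne, hpq⟩ := Finset.card_eq_two.1 (by omega : n.primeFactors.card = 2)
    have hfac : n = p ^ n.factorization p * q ^ n.factorization q := by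
      have := Nat.prod_factorization_pow_eq_self hn.ne'
      rw [Finsupp.prod, Nat.support_factorization, hpq, Finset.prod_pair hne] at this
      exact this.symm
    have hp : p ∈ n.primeFactors := by rw [hpq]; simp
    have hq : q ∈ n.primeFactors := by rw [hpq]; simp
    have hpp := Nat.prime_of_mem_primeFactors hp
    have hqp := Nat.prime_of_mem_primeFactors hq
    have hp1 : 1 ≤ n.factorization p :=
      (hpp.dvd_iff_one_le_factorization hn.ne').1 (Nat.dvd_of_mem_primeFactors hp)
    have hq1 : 1 ≤ n.factorization q :=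
      (hqp.dvd_iff_one_le_factorization hn.ne').1 (Nat.dvd_of_mem_primeFactors hq)
    generalize n.factorization p = x at *
    generalize n.factorization q = y at *
    obtain ⟨x', rfl⟩ := Nat.exists_eq_add_of_le' hp1
    obtain ⟨y', rfl⟩ := Nat.exists_eq_add_of_le' hq1
    rcases lt_or_gt_of_ne hne with hlt | hgt
    · rw [hfac] at h
      exact two_primes hpp hqp hlt h
    · rw [hfac, mul_comm] at h
      exact two_primes hqp hpp hgt h

end Pool.Agent.T6.H74.S5
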